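import Mathlib

/-!
# Side functions on free products
-/

namespace Pool.Agent.V1122.Ends

open Function Monoid

/-- A function telling on which side of the base edge an element lies, with a length. -/
structure SideFn (P : Type*) [Group P] where
  t : P → Bool
  len : P → ℕ
  len_pos : ∀ g, g ≠ 1 → 0 < len g
  len_inv : ∀ g, len g⁻¹ = len g
  t_mul : ∀ g h, g ≠ 1 → h ≠ 1 → t g⁻¹ ≠ t h → t (g * h) = t g
  len_mul : ∀ g h, g ≠ 1 → h ≠ 1 → t g⁻¹ ≠ t h → len (g * h) = len g + len h

namespace SideFn

/-- restriction along an injective homomorphism -/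
def comap {A P : Type*} [Group A] [Group P] (s : SideFn P) (f : A →* P) (hf : Injective f) :
    SideFn A where
  t a := s.t (f a)
  len a := s.len (f a)
  len_pos g hg := s.len_pos _ fun h => hg (hf (h.trans (map_one f).symm))
  len_inv g := by rw [map_inv, s.len_inv]
  t_mul g h hg hh e := by
    rw [map_mul]
    exact s.t_mul _ _ (fun h' => hg (hf (h'.trans (map_one f).symm)))
      (fun h' => hh (hf (h'.trans (map_one f).symm))) (by rwa [map_inv] at e)
  len_mul g h hg hh e := by
    rw [map_mul]
    exact s.len_mul _ _ (fun h' => hg (hf (h'.trans (map_one f).symm)))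
      (fun h' => hh (hf (h'.trans (map_one f).symm))) (by rwa [map_inv] at e)

variable {P : Type*} [Group P] (s : SideFn P)

lemma mul_ne_one {g h : P} (e : s.t g⁻¹ ≠ s.t h) : g * h ≠ 1 := by
  intro h'
  exact e (by rw [eq_inv_of_mul_eq_one_right h'])

end SideFn

section coprod

open Monoid.CoprodI

variable {ι : Type*} {M : ι → Type*} [∀ i, Group (M i)]

open Classical in
/-- the first index of a nontrivial element -/
noncomputable def ft (g : CoprodI M) : Option ι := (Word.equiv g).fstIdx

open Classical in
/-- the syllable length -/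
noncomputable def slen (g : CoprodI M) : ℕ := (Word.equiv g).toList.length

lemma ft_prod (w : Word M) : ft w.prod = w.fstIdx := by
  classical
  have h : Word.equiv w.prod = w := Word.equiv.apply_symm_apply w
  unfold ft
  convert congrArg Word.fstIdx h

lemma slen_prod (w : Word M) : slen w.prod = w.toList.length := by
  classical
  have h : Word.equiv w.prod = w := Word.equiv.apply_symm_apply w
  unfold slen
  convert congrArg (fun w => (Word.toList w).length) h

lemma ft_neWord {i j : ι} (w : NeWord M i j) : ft w.prod = some i := by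
  rw [NeWord.prod, ft_prod, Word.fstIdx]
  change Option.map Sigma.fst w.toList.head? = _
  rw [NeWord.toList_head?]; rfl

lemma slen_neWord {i j : ι} (w : NeWord M i j) : slen w.prod = w.toList.length := by
  rw [NeWord.prod, slen_prod]; rfl

lemma exists_neWord (g : CoprodI M) (hg : g ≠ 1) : ∃ (i j : ι) (w : NeWord M i j), w.prod = g := by
  classical
  have h1 : Word.equiv g ≠ Word.empty := by
    intro h
    apply hg
    have h2 : Word.equiv.symm (Word.equiv g) = g := Word.equiv.symm_apply_apply g
    rw [← h2, h]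
    exact Word.prod_empty
  obtain ⟨i, j, w, hw⟩ := NeWord.of_word _ h1
  refine ⟨i, j, w, ?_⟩
  rw [NeWord.prod, hw]
  exact Word.equiv.symm_apply_apply g

lemma neWord_prod_ne_one {i j : ι} (w : NeWord M i j) : w.prod ≠ 1 := by
  intro h
  have h1 := ft_neWord w
  have h2 : (1 : CoprodI M) = (Word.empty : Word M).prod := Word.prod_empty.symm
  rw [h, h2, ft_prod] at h1
  exact absurd h1 (by simp [Word.fstIdx, Word.empty])

lemma length_inv_neWord {i j : ι} (w : NeWord M i j) : w.inv.toList.length = w.toList.length := by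
  induction w with
  | singleton x hx => rfl
  | append w₁ h w₂ h1 h2 =>
    change (w₂.inv.toList ++ w₁.inv.toList).length = (w₁.toList ++ w₂.toList).length
    rw [List.length_append, List.length_append, h1, h2, add_comm]

lemma ft_of {i : ι} {x : M i} (hx : x ≠ 1) : ft (of x : CoprodI M) = some i := by
  have := ft_neWord (NeWord.singleton x hx)
  rwa [NeWord.prod_singleton] at this

lemma slen_of {i : ι} {x : M i} (hx : x ≠ 1) : slen (of x : CoprodI M) = 1 := by
  have := slen_neWord (NeWord.singleton x hx)
  rwa [NeWord.prod_singleton] at this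

lemma ft_mul {g h : CoprodI M} (hg : g ≠ 1) (hh : h ≠ 1) (e : ft g⁻¹ ≠ ft h) :
    ft (g * h) = ft g ∧ slen (g * h) = slen g + slen h := by
  obtain ⟨i, j, w, rfl⟩ := exists_neWord g hg
  obtain ⟨k, l, v, rfl⟩ := exists_neWord h hh
  rw [← NeWord.inv_prod, ft_neWord, ft_neWord] at e
  have e' : j ≠ k := fun h => e (by rw [h])
  rw [← NeWord.append_prod (hne := e'), ft_neWord, ft_neWord, slen_neWord, slen_neWord,
    slen_neWord]
  exact ⟨rfl, by simp [NeWord.toList]⟩

lemma slen_pos {g : CoprodI M} (hg : g ≠ 1) : 0 < slen g := by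
  obtain ⟨i, j, w, rfl⟩ := exists_neWord g hg
  rw [slen_neWord]
  exact List.length_pos_of_ne_nil w.toList_ne_nil

lemma slen_inv (g : CoprodI M) : slen g⁻¹ = slen g := by
  by_cases hg : g = 1
  · rw [hg, inv_one]
  · obtain ⟨i, j, w, rfl⟩ := exists_neWord g hg
    rw [← NeWord.inv_prod, slen_neWord, slen_neWord, length_inv_neWord]

lemma ft_ne_none {g : CoprodI M} (hg : g ≠ 1) : ∃ i, ft g = some i := by
  obtain ⟨i, j, w, rfl⟩ := exists_neWord g hg
  exact ⟨i, ft_neWord w⟩

/-- decomposition of the first letter -/
lemma head_decomp {g : CoprodI M} {i : ι} (hi : ft g = some i) :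
    ∃ (x : M i) (c : CoprodI M), x ≠ 1 ∧ g = of x * c ∧
      (c = 1 ∨ (c ≠ 1 ∧ ft c ≠ some i ∧ slen g = slen c + 1)) := by
  classical
  obtain ⟨w, rfl⟩ : ∃ w : Word M, w.prod = g :=
    ⟨Word.equiv g, Word.equiv.symm_apply_apply g⟩
  rw [ft_prod] at hi
  induction w using Word.consRecOn with
  | empty => simp [Word.fstIdx, Word.empty] at hi
  | cons k m w h1 h2 _ =>
    rw [Word.fstIdx_cons] at hi
    obtain rfl : k = i := Option.some.inj hi
    refine ⟨m, w.prod, h2, Word.prod_cons _ _ _ _ _, ?_⟩
    by_cases hw : w.prod = 1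
    · exact Or.inl hw
    · refine Or.inr ⟨hw, by rw [ft_prod]; exact h1, ?_⟩
      rw [slen_prod, slen_prod]
      rfl

/-- nontrivial letters with nontrivial images -/
lemma neWord_map {ι' : Type*} {M' : ι' → Type*} [∀ i, Group (M' i)] (e : ι → ι')
    (he : Injective e) (f : ∀ i, M i →* M' (e i)) (hf : ∀ i, Injective (f i)) {i j : ι}
    (w : NeWord M i j) :
    ∃ w' : NeWord M' (e i) (e j), w'.prod =
      CoprodI.lift (fun i => (of : M' (e i) →* CoprodI M').comp (f i)) w.prod := by
  induction w with
  | singleton x hx =>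
    refine ⟨NeWord.singleton (f _ x) fun h => hx (hf _ (h.trans (map_one _).symm)), ?_⟩
    rw [NeWord.prod_singleton, NeWord.prod_singleton, CoprodI.lift_of]; rfl
  | append w₁ h w₂ h1 h2 =>
    obtain ⟨v₁, hv₁⟩ := h1
    obtain ⟨v₂, hv₂⟩ := h2
    refine ⟨NeWord.append v₁ (fun h' => h (he h')) v₂, ?_⟩
    rw [NeWord.append_prod, NeWord.append_prod, map_mul, hv₁, hv₂]

lemma coprod_map_injective {ι' : Type*} {M' : ι' → Type*} [∀ i, Group (M' i)] (e : ι → ι')
    (he : Injective e) (f : ∀ i, M i →* M' (e i)) (hf : ∀ i, Injective (f i)) :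
    Injective (CoprodI.lift (fun i => (of : M' (e i) →* CoprodI M').comp (f i))) := by
  rw [injective_iff_map_eq_one]
  intro g hg
  by_contra h
  obtain ⟨i, j, w, rfl⟩ := exists_neWord g h
  obtain ⟨w', hw'⟩ := neWord_map e he f hf w
  rw [hg] at hw'
  exact neWord_prod_ne_one w' hw'

end coprod

/-- powers of distinct generators generate freely -/
theorem freeGroup_pow_injective {ι ι' : Type*} (e : ι → ι') (he : Injective e) (k : ι → ℕ)
    (hk : ∀ i, k i ≠ 0) :
    Injective (FreeGroup.lift (fun i => (FreeGroup.of (e i)) ^ (k i) : ι → FreeGroup ι')) := by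
  let f : ∀ _ : ι, FreeGroup Unit →* FreeGroup Unit := fun i =>
    FreeGroup.lift fun _ => (FreeGroup.of ()) ^ (k i)
  have hf : ∀ i, Injective (f i) := by
    intro i
    rw [injective_iff_map_eq_one]
    intro x hx
    -- `f i x = x ^ k i`
    have h1 : ∀ x, f i x = x ^ (k i) := by
      intro x
      let c : FreeGroup Unit →* FreeGroup Unit :=
        { toFun := fun x => x ^ (k i)
          map_one' := one_pow _
          map_mul' := by
            intro x y
            have hc : ∀ x y : FreeGroup Unit, x * y = y * x := by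
              intro x y
              have h2 : ∀ z : FreeGroup Unit, ∃ n : ℤ, z = (FreeGroup.of ()) ^ n := fun z =>
                ⟨FreeGroup.freeGroupUnitEquivInt z,
                  (FreeGroup.freeGroupUnitEquivInt.symm_apply_apply z).symm⟩
              obtain ⟨n, rfl⟩ := h2 x
              obtain ⟨m, rfl⟩ := h2 y
              rw [← zpow_add, ← zpow_add, add_comm]
            exact (show Commute x y from hc x y).mul_pow (k i) }
      have h3 : f i = c := by
        ext u
        simp [f, c]
      rw [h3]; rfl
    rw [h1] at hx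
    exact (pow_eq_one_iff_left (hk i)).mp hx
  have h := coprod_map_injective (M := fun _ : ι => FreeGroup Unit)
    (M' := fun _ : ι' => FreeGroup Unit) e he f hf
  have e1 : FreeGroup.lift (fun i => (FreeGroup.of (e i)) ^ (k i) : ι → FreeGroup ι') =
      (freeGroupEquivCoprodI (ι := ι')).symm.toMonoidHom.comp
        ((CoprodI.lift (fun i => (CoprodI.of (M := fun _ : ι' => FreeGroup Unit)
          (i := e i)).comp (f i))).comp
          (freeGroupEquivCoprodI (ι := ι)).toMonoidHom) := by
    ext i
    simp [f]
  rw [e1]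
  exact (freeGroupEquivCoprodI (ι := ι')).symm.injective.comp
    (h.comp (freeGroupEquivCoprodI (ι := ι)).injective)

end Pool.Agent.V1122.Ends
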