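import Mathlib
import Pool.Agent.V1122.Ends.SideFn

/-!
# Splitting groups with a side function
-/

namespace Pool.Agent.V1122.Ends

open Function Monoid

universe u

/-- A nontrivial group which is not a free product of two nontrivial groups. -/
def FreelyIndecomposable (A : Type u) [Group A] : Prop :=
  Nontrivial A ∧ ¬ ∃ (B : Bool → Type u) (_ : ∀ i, Group (B i)),
    (∀ i, Nontrivial (B i)) ∧ Nonempty (A ≃* Monoid.CoprodI B)

/-- free product decompositions by ping-pong -/
theorem decomposes_of_ping_pong {A : Type u} [Group A] (htf : ∀ g : A, g ≠ 1 → ¬ IsOfFinOrder g)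
    (H : Bool → Subgroup A) (hne : ∀ i, H i ≠ ⊥) (hgen : H false ⊔ H true = ⊤) (X : Bool → Set A)
    (hXne : ∀ i, (X i).Nonempty) (hdisj : Disjoint (X false) (X true))
    (hpp : ∀ i, ∀ h ∈ H i, h ≠ 1 → ∀ x ∈ X (!i), h * x ∈ X i) : ¬ FreelyIndecomposable A := by
  rintro ⟨-, hA⟩
  apply hA
  have hnt : ∀ i, Nontrivial (H i) := fun i => (Subgroup.nontrivial_iff_ne_bot _).mpr (hne i)
  refine ⟨fun i => H i, fun i => inferInstance, hnt, ?_⟩
  let F : Monoid.CoprodI (fun i => H i) →* A := Monoid.CoprodI.lift fun i => (H i).subtype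
  have hinj : Injective F := by
    refine Monoid.CoprodI.lift_injective_of_ping_pong (α := A) (fun i => (H i).subtype) ?_ X hXne
      ?_ ?_
    · right
      refine ⟨false, ?_⟩
      obtain ⟨g, hg⟩ := exists_ne (1 : H false)
      have hg' : (g : A) ≠ 1 := fun h => hg (Subtype.ext h)
      have h1 : Infinite (H false) := by
        refine Infinite.of_injective (fun n : ℕ => g ^ n) ?_
        rw [injective_pow_iff_not_isOfFinOrder]
        intro h
        exact htf g hg' (by
          rw [← Subgroup.subtype_apply]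
          exact MonoidHom.isOfFinOrder _ h)
      exact (Cardinal.natCast_le_aleph0 (n := 3)).trans (Cardinal.aleph0_le_mk _)
    · intro i j hij
      match i, j with
      | false, false => exact absurd rfl hij
      | true, true => exact absurd rfl hij
      | false, true => exact hdisj
      | true, false => exact hdisj.symm
    · intro i j hij h hh
      rintro _ ⟨x, hx, rfl⟩
      have hj : j = !i := by
        match i, j with
        | false, false => exact absurd rfl hij
        | true, true => exact absurd rfl hij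
        | false, true => rfl
        | true, false => rfl
      subst hj
      exact hpp i h h.2 (fun h' => hh (Subtype.ext h')) x hx
  have hsurj : Surjective F := by
    rw [← MonoidHom.range_eq_top, eq_top_iff, ← hgen]
    refine sup_le ?_ ?_
    · intro x hx
      exact ⟨Monoid.CoprodI.of (i := false) ⟨x, hx⟩, by simp [F]⟩
    · intro x hx
      exact ⟨Monoid.CoprodI.of (i := true) ⟨x, hx⟩, by simp [F]⟩
  exact ⟨(MulEquiv.ofBijective F ⟨hinj, hsurj⟩).symm⟩

namespace SideFn

variable {A : Type u} [Group A] (s : SideFn A)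

/-- irreducible elements -/
def Irr (g : A) : Prop := g ≠ 1 ∧ ∀ p q, p ≠ 1 → q ≠ 1 → s.t p⁻¹ ≠ s.t q → g ≠ p * q

variable {s}

lemma Irr.inv {g : A} (hg : s.Irr g) : s.Irr g⁻¹ := by
  refine ⟨inv_ne_one.mpr hg.1, fun p q hp hq h e => ?_⟩
  refine hg.2 q⁻¹ p⁻¹ (inv_ne_one.mpr hq) (inv_ne_one.mpr hp) ?_ ?_
  · rw [inv_inv]; exact h.symm
  · rw [← mul_inv_rev, ← e, inv_inv]

lemma Irr.t_mul_aux {g v : A} (hg : s.Irr g) (hv : s.Irr v) (hne : g * v ≠ 1) :
    s.t (g * v) = s.t g := by
  by_contra h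
  refine hv.2 g⁻¹ (g * v) (inv_ne_one.mpr hg.1) hne ?_ (by group)
  rw [inv_inv]; exact fun h' => h h'.symm

lemma Irr.mul {g v : A} (hg : s.Irr g) (hv : s.Irr v) (h : s.t g⁻¹ = s.t v) (hne : g * v ≠ 1) :
    s.t (g * v) = s.t g ∧ s.t (g * v)⁻¹ = s.t v⁻¹ ∧ s.Irr (g * v) := by
  have h1 := hg.t_mul_aux hv hne
  have h2 : s.t (g * v)⁻¹ = s.t v⁻¹ := by
    rw [mul_inv_rev]
    exact hv.inv.t_mul_aux hg.inv (by rw [← mul_inv_rev]; exact inv_ne_one.mpr hne)
  refine ⟨h1, h2, hne, fun p q hp hq hpq e => ?_⟩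
  let r := p⁻¹ * g
  have hg' : g = p * r := by simp [r]
  have hv' : v = r⁻¹ * q := by
    have : v = g⁻¹ * (g * v) := by group
    rw [this, e]; simp [r, mul_assoc]
  by_cases hr : r = 1
  · rw [hr, mul_one] at hg'
    rw [hr, inv_one, one_mul] at hv'
    rw [hg', hv'] at h
    exact hpq h
  · have h3 : s.t p⁻¹ = s.t r := by
      by_contra h'
      exact hg.2 p r hp hr h' hg'
    have h4 : s.t r = s.t q := by
      by_contra h'
      exact hv.2 r⁻¹ q (inv_ne_one.mpr hr) hq (by rw [inv_inv]; exact h') hv'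
    exact hpq (h3.trans h4)

variable (s)

lemma gen_irr (g : A) : g ∈ Subgroup.closure {c | s.Irr c} := by
  have key : ∀ n : ℕ, ∀ g : A, s.len g ≤ n → g ∈ Subgroup.closure {c | s.Irr c} := by
    intro n
    induction n with
    | zero =>
      intro g hg
      by_cases h : g = 1
      · rw [h]; exact one_mem _
      · have := s.len_pos g h; omega
    | succ n ih =>
      intro g hg
      by_cases h : g = 1
      · rw [h]; exact one_mem _
      · by_cases hirr : s.Irr g
        · exact Subgroup.subset_closure hirr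
        · have h1 : ¬ ∀ p q, p ≠ 1 → q ≠ 1 → s.t p⁻¹ ≠ s.t q → g ≠ p * q := fun h' =>
            hirr ⟨h, h'⟩
          push Not at h1
          obtain ⟨p, q, hp, hq, hpq, rfl⟩ := h1
          have h2 := s.len_mul p q hp hq hpq
          have h3 := s.len_pos p hp
          have h4 := s.len_pos q hq
          exact mul_mem (ih p (by omega)) (ih q (by omega))
  exact key _ g le_rfl

/-- the subgroup of irreducible elements lying on side `i` together with their inverse -/
def B (i : Bool) : Subgroup A where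
  carrier := {b | b = 1 ∨ (s.Irr b ∧ s.t b = i ∧ s.t b⁻¹ = i)}
  one_mem' := Or.inl rfl
  mul_mem' := by
    rintro a b (rfl | ⟨ha, ha1, ha2⟩) (rfl | ⟨hb, hb1, hb2⟩)
    · left; rw [mul_one]
    · right; rw [one_mul]; exact ⟨hb, hb1, hb2⟩
    · right; rw [mul_one]; exact ⟨ha, ha1, ha2⟩
    · by_cases h : a * b = 1
      · exact Or.inl h
      · obtain ⟨h1, h2, h3⟩ := ha.mul hb (ha2.trans hb1.symm) h
        exact Or.inr ⟨h3, h1.trans ha1, h2.trans hb2⟩
  inv_mem' := by
    rintro a (rfl | ⟨ha, ha1, ha2⟩)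
    · left; rw [inv_one]
    · right; exact ⟨ha.inv, ha2, by rw [inv_inv]; exact ha1⟩

variable {s}

lemma mem_B {i : Bool} {b : A} (hb : b ∈ s.B i) (h1 : b ≠ 1) :
    s.Irr b ∧ s.t b = i ∧ s.t b⁻¹ = i := hb.resolve_left h1

lemma bool_eq {a b c : Bool} (h1 : a ≠ c) (h2 : b ≠ c) : a = b := by
  revert a b c; decide

variable (s)

/-- **Splitting theorem.** -/
theorem cyclic_of_mixed (htf : ∀ g : A, g ≠ 1 → ¬ IsOfFinOrder g) (hA : FreelyIndecomposable A)
    (m : A) (hm : m ≠ 1) (hmix : s.t m ≠ s.t m⁻¹) : IsCyclic A := by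
  by_cases hcase : ∀ c, s.Irr c → s.t c = s.t c⁻¹
  · -- no mixed irreducible element
    exfalso
    have hgen : s.B false ⊔ s.B true = ⊤ := by
      rw [eq_top_iff]
      intro g _
      have h1 := s.gen_irr g
      refine (Subgroup.closure_le (K := s.B false ⊔ s.B true)).mpr ?_ h1
      intro c hc
      have h2 := hcase c hc
      match h : s.t c with
      | false => exact Subgroup.mem_sup_left (Or.inr ⟨hc, h, h2 ▸ h⟩)
      | true => exact Subgroup.mem_sup_right (Or.inr ⟨hc, h, h2 ▸ h⟩)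
    have hne : ∀ i, s.B i ≠ ⊥ := by
      intro i hi
      have h1 : m ∈ s.B (!i) := by
        have h2 : m ∈ s.B false ⊔ s.B true := by rw [hgen]; trivial
        match i, hi with
        | false, hi => rwa [hi, bot_sup_eq] at h2
        | true, hi => rwa [hi, sup_bot_eq] at h2
      obtain ⟨_, h2, h3⟩ := mem_B h1 hm
      exact hmix (h2.trans h3.symm)
    have hpp : ∀ i, ∀ h ∈ s.B i, h ≠ 1 → ∀ x ∈ {x : A | x ≠ 1 ∧ s.t x = !i},
        h * x ∈ {x : A | x ≠ 1 ∧ s.t x = i} := by
      rintro i h hh h1 x ⟨hx, hx'⟩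
      obtain ⟨_, h2, h3⟩ := mem_B hh h1
      have h4 : s.t h⁻¹ ≠ s.t x := by rw [h3, hx']; cases i <;> simp
      exact ⟨s.mul_ne_one h4, (s.t_mul h x h1 hx h4).trans h2⟩
    refine decomposes_of_ping_pong htf s.B hne hgen (fun i => {x | x ≠ 1 ∧ s.t x = i}) ?_ ?_ ?_ hA
    · intro i
      obtain ⟨b, hb, hb1⟩ := (Subgroup.ne_bot_iff_exists_ne_one.mp (hne i)) |> fun ⟨b, hb⟩ =>
        (⟨(b : A), b.2, fun h => hb (Subtype.ext h)⟩ : ∃ b : A, b ∈ s.B i ∧ b ≠ 1)
      exact ⟨b, hb1, (mem_B hb hb1).2.1⟩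
    · rw [Set.disjoint_left]
      rintro x ⟨_, h1⟩ ⟨_, h2⟩
      rw [h1] at h2; exact absurd h2 (by decide)
    · exact hpp
  · push Not at hcase
    obtain ⟨u, hu, hut⟩ := hcase
    obtain ⟨i, hi⟩ : ∃ i, s.t u = i := ⟨_, rfl⟩
    have hu' : s.t u⁻¹ ≠ i := fun h => hut (hi.trans h.symm)
    by_cases hB : s.B i = ⊥
    · -- cyclic
      refine ⟨u, fun g => ?_⟩
      have h1 := s.gen_irr g
      refine (Subgroup.closure_le (K := Subgroup.zpowers u)).mpr ?_ h1
      have hij : ∀ c, s.Irr c → s.t c = i → s.t c⁻¹ ≠ i → c ∈ Subgroup.zpowers u := by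
        intro c hc hc1 hc2
        by_cases h : c * u⁻¹ = 1
        · rw [mul_inv_eq_one.mp h]; exact Subgroup.mem_zpowers u
        · obtain ⟨h2, h3, h4⟩ := hc.mul hu.inv (bool_eq hc2 hu') h
          have h5 : c * u⁻¹ ∈ s.B i := Or.inr ⟨h4, h2.trans hc1, by rw [h3, inv_inv]; exact hi⟩
          rw [hB, Subgroup.mem_bot] at h5
          exact absurd h5 h
      intro c hc
      by_cases h1 : s.t c = i
      · by_cases h2 : s.t c⁻¹ = i
        · have h5 : c ∈ s.B i := Or.inr ⟨hc, h1, h2⟩
          rw [hB, Subgroup.mem_bot] at h5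
          exact absurd h5 hc.1
        · exact hij c hc h1 h2
      · by_cases h2 : s.t c⁻¹ = i
        · have := hij c⁻¹ hc.inv h2 (by rw [inv_inv]; exact h1)
          rw [SetLike.mem_coe, ← inv_inv c]; exact inv_mem this
        · have h3 : u * c ≠ 1 := by
            intro h
            have : c = u⁻¹ := eq_inv_of_mul_eq_one_right h
            rw [this, inv_inv] at h2
            exact h2 hi
          obtain ⟨h4, h5, h6⟩ := hu.mul hc (bool_eq hu' h1) h3
          have h7 := hij _ h6 (h4.trans hi) (by rw [h5]; exact h2)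
          have h8 : c = u⁻¹ * (u * c) := by group
          rw [SetLike.mem_coe, h8]
          exact mul_mem (inv_mem (Subgroup.mem_zpowers u)) h7
    · exfalso
      -- the ping-pong sets
      let Y : Set A := {x | x = 1 ∨ (x ≠ 1 ∧ s.t x ≠ i)} ∪
        {x | x = u ∨ (u⁻¹ * x ≠ 1 ∧ s.t (u⁻¹ * x) = i)}
      have hub : ∀ b ∈ s.B i, b ≠ 1 → u⁻¹ * b ≠ 1 ∧ s.t (u⁻¹ * b) ≠ i ∧ s.t (u⁻¹ * b)⁻¹ = i ∧
          s.Irr (u⁻¹ * b) := by
        intro b hb hb1
        obtain ⟨hb2, hb3, hb4⟩ := mem_B hb hb1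
        have h1 : u⁻¹ * b ≠ 1 := by
          intro h
          have h2 : u = b := inv_mul_eq_one.mp h
          rw [h2] at hu'
          exact hu' hb4
        obtain ⟨h2, h3, h4⟩ := hu.inv.mul hb2 (by rw [inv_inv, hi, hb3]) h1
        exact ⟨h1, by rw [h2]; exact hu', h3.trans hb4, h4⟩
      have hbu : ∀ b ∈ s.B i, b ≠ 1 → b * u ≠ 1 ∧ s.t (b * u) = i ∧ s.t (b * u)⁻¹ ≠ i ∧
          s.Irr (b * u) := by
        intro b hb hb1
        obtain ⟨hb2, hb3, hb4⟩ := mem_B hb hb1
        have h1 : b * u ≠ 1 := by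
          intro h
          have h2 : b = u⁻¹ := eq_inv_of_mul_eq_one_left h
          rw [← h2] at hu'
          exact hu' hb3
        obtain ⟨h2, h3, h4⟩ := hb2.mul hu (by rw [hi, hb4]) h1
        exact ⟨h1, h2.trans hb3, by rw [h3]; exact hu', h4⟩
      have hubu : ∀ b ∈ s.B i, b ≠ 1 → u⁻¹ * (b * u) ≠ 1 ∧ s.t (u⁻¹ * (b * u)) ≠ i ∧
          s.t (u⁻¹ * (b * u))⁻¹ ≠ i := by
        intro b hb hb1
        obtain ⟨h1, h2, h3, h4⟩ := hbu b hb hb1
        have h5 : u⁻¹ * (b * u) ≠ 1 := by
          intro h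
          apply hb1
          have h6 : u = b * u := inv_mul_eq_one.mp h
          exact (mul_eq_right.mp h6.symm)
        obtain ⟨h6, h7, h8⟩ := hu.inv.mul h4 (by rw [inv_inv, hi, h2]) h5
        exact ⟨h5, by rw [h6]; exact hu', by rw [h7]; exact h3⟩
      have hpp1 : ∀ b ∈ s.B i, b ≠ 1 → ∀ x ∈ Y, b * x ∈ Yᶜ := by
        intro b hb hb1 x hx
        obtain ⟨hb2, hb3, hb4⟩ := mem_B hb hb1
        -- it suffices to know the sides of `b x` and `u⁻¹ b x`
        have hsuff : b * x ≠ 1 → s.t (b * x) = i → u⁻¹ * (b * x) ≠ 1 →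
            s.t (u⁻¹ * (b * x)) ≠ i → b * x ∈ Yᶜ := by
          rintro h1 h2 h3 h4 ((h | ⟨_, h⟩) | (h | ⟨_, h⟩))
          · exact h1 h
          · exact h h2
          · rw [h, inv_mul_cancel] at h3; exact h3 rfl
          · exact h4 h
        obtain ⟨hub1, hub2, hub3, hub4⟩ := hub b hb hb1
        obtain ⟨hbu1, hbu2, hbu3, hbu4⟩ := hbu b hb hb1
        obtain ⟨hubu1, hubu2, hubu3⟩ := hubu b hb hb1
        rcases hx with (rfl | ⟨hx, hx'⟩) | (rfl | ⟨hx, hx'⟩)
        · exact hsuff (by rwa [mul_one]) (by rwa [mul_one]) (by rwa [mul_one])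
            (by rwa [mul_one])
        · have e1 : s.t b⁻¹ ≠ s.t x := fun h => hx' (by rw [← h, hb4])
          have e2 : s.t (u⁻¹ * b)⁻¹ ≠ s.t x := fun h => hx' (by rw [← h, hub3])
          have e3 := s.mul_ne_one e2
          have e4 := s.t_mul _ _ hub1 hx e2
          rw [mul_assoc] at e3 e4
          exact hsuff (s.mul_ne_one e1) ((s.t_mul b x hb1 hx e1).trans hb3) e3
            (by rw [e4]; exact hub2)
        · exact hsuff hbu1 hbu2 hubu1 hubu2
        · have e1 : s.t (b * u)⁻¹ ≠ s.t (u⁻¹ * x) := fun h => hbu3 (by rw [h, hx'])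
          have e2 : s.t (u⁻¹ * (b * u))⁻¹ ≠ s.t (u⁻¹ * x) := fun h => hubu3 (by rw [h, hx'])
          have e3 := s.mul_ne_one e1
          have e4 := s.t_mul _ _ hbu1 hx e1
          have e5 := s.mul_ne_one e2
          have e6 := s.t_mul _ _ hubu1 hx e2
          have a1 : b * u * (u⁻¹ * x) = b * x := by group
          have a2 : u⁻¹ * (b * u) * (u⁻¹ * x) = u⁻¹ * (b * x) := by group
          rw [a1] at e3 e4
          rw [a2] at e5 e6
          exact hsuff e3 (e4.trans hbu2) e5 (by rw [e6]; exact hubu2)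
      -- `u` maps the complement of `Y` into the second part
      have hU : ∀ x, x ∉ Y → x ≠ 1 ∧ s.t x = i ∧ u⁻¹ * x ≠ 1 ∧ s.t (u⁻¹ * x) ≠ i := by
        intro x hx
        have h1 : x ≠ 1 := fun h => hx (Or.inl (Or.inl h))
        have h2 : s.t x = i := by
          by_contra h
          exact hx (Or.inl (Or.inr ⟨h1, h⟩))
        have h3 : u⁻¹ * x ≠ 1 := fun h => hx (Or.inr (Or.inl (inv_mul_eq_one.mp h).symm))
        exact ⟨h1, h2, h3, fun h => hx (Or.inr (Or.inr ⟨h3, h⟩))⟩
      have hpos : ∀ n : ℕ, ∀ x, x ∉ Y → u⁻¹ * (u ^ (n + 1) * x) ≠ 1 ∧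
          s.t (u⁻¹ * (u ^ (n + 1) * x)) = i := by
        intro n x hx
        obtain ⟨h1, h2, _, _⟩ := hU x hx
        induction n with
        | zero =>
          have e : u⁻¹ * (u ^ (0 + 1) * x) = x := by group
          rw [e]; exact ⟨h1, h2⟩
        | succ n ih =>
          have e : u⁻¹ * (u ^ (n + 1 + 1) * x) = u * (u⁻¹ * (u ^ (n + 1) * x)) := by
            rw [pow_succ']; group
          rw [e]
          have e1 : s.t u⁻¹ ≠ s.t (u⁻¹ * (u ^ (n + 1) * x)) := fun h => hu' (by rw [h, ih.2])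
          exact ⟨s.mul_ne_one e1, (s.t_mul _ _ hu.1 ih.1 e1).trans hi⟩
      have hneg : ∀ n : ℕ, ∀ x, x ∉ Y → (u⁻¹) ^ (n + 1) * x ≠ 1 ∧
          s.t ((u⁻¹) ^ (n + 1) * x) ≠ i := by
        intro n x hx
        obtain ⟨_, _, h1, h2⟩ := hU x hx
        induction n with
        | zero =>
          rw [zero_add, pow_one]; exact ⟨h1, h2⟩
        | succ n ih =>
          have e : (u⁻¹) ^ (n + 1 + 1) * x = u⁻¹ * ((u⁻¹) ^ (n + 1) * x) := by
            rw [pow_succ', mul_assoc]
          rw [e]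
          have e1 : s.t u⁻¹⁻¹ ≠ s.t ((u⁻¹) ^ (n + 1) * x) := by
            rw [inv_inv, hi]; exact fun h => ih.2 h.symm
          refine ⟨s.mul_ne_one e1, ?_⟩
          rw [s.t_mul _ _ hu.inv.1 ih.1 e1]
          exact hu'
      have hpp2 : ∀ h ∈ Subgroup.zpowers u, h ≠ 1 → ∀ x ∈ Yᶜ, h * x ∈ Y := by
        rintro _ ⟨k, rfl⟩ hk x hx
        simp only at hk ⊢
        rcases lt_trichotomy k 0 with h | h | h
        · obtain ⟨n, hn⟩ := Int.eq_ofNat_of_zero_le (show 0 ≤ -k - 1 by omega)
          have hk' : k = -((n + 1 : ℕ) : ℤ) := by push_cast; omega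
          have e : u ^ k = (u⁻¹) ^ (n + 1) := by
            rw [hk', zpow_neg, zpow_natCast, inv_pow]
          rw [e]
          exact Or.inl (Or.inr (hneg n x hx))
        · rw [h, zpow_zero] at hk; exact absurd rfl hk
        · obtain ⟨n, hn⟩ := Int.eq_ofNat_of_zero_le (show 0 ≤ k - 1 by omega)
          have hk' : k = ((n + 1 : ℕ) : ℤ) := by push_cast; omega
          have e : u ^ k = u ^ (n + 1) := by rw [hk', zpow_natCast]
          rw [e]
          exact Or.inr (Or.inr (hpos n x hx))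
      have hgen : s.B i ⊔ Subgroup.zpowers u = ⊤ := by
        rw [eq_top_iff]
        intro g _
        have h1 := s.gen_irr g
        refine (Subgroup.closure_le (K := s.B i ⊔ Subgroup.zpowers u)).mpr ?_ h1
        have huu : u ∈ s.B i ⊔ Subgroup.zpowers u :=
          Subgroup.mem_sup_right (Subgroup.mem_zpowers u)
        have hij : ∀ c, s.Irr c → s.t c = i → s.t c⁻¹ ≠ i → c ∈ s.B i ⊔ Subgroup.zpowers u := by
          intro c hc hc1 hc2
          by_cases h : c * u⁻¹ = 1
          · rw [mul_inv_eq_one.mp h]; exact huu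
          · obtain ⟨h2, h3, h4⟩ := hc.mul hu.inv (bool_eq hc2 hu') h
            have h5 : c * u⁻¹ ∈ s.B i := Or.inr ⟨h4, h2.trans hc1, by rw [h3, inv_inv]; exact hi⟩
            have h6 : c = c * u⁻¹ * u := by group
            rw [h6]
            exact mul_mem (Subgroup.mem_sup_left h5) huu
        intro c hc
        by_cases h1 : s.t c = i
        · by_cases h2 : s.t c⁻¹ = i
          · exact Subgroup.mem_sup_left (Or.inr ⟨hc, h1, h2⟩)
          · exact hij c hc h1 h2
        · by_cases h2 : s.t c⁻¹ = i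
          · have := hij c⁻¹ hc.inv h2 (by rw [inv_inv]; exact h1)
            rw [SetLike.mem_coe, ← inv_inv c]; exact inv_mem this
          · have h3 : u * c ≠ 1 := by
              intro h
              have : c = u⁻¹ := eq_inv_of_mul_eq_one_right h
              rw [this, inv_inv] at h2
              exact h2 hi
            obtain ⟨h4, h5, h6⟩ := hu.mul hc (bool_eq hu' h1) h3
            have h7 := hij _ h6 (h4.trans hi) (by rw [h5]; exact h2)
            have h8 : c = u⁻¹ * (u * c) := by group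
            rw [SetLike.mem_coe, h8]
            exact mul_mem (inv_mem huu) h7
      obtain ⟨b, hb, hb1⟩ : ∃ b : A, b ∈ s.B i ∧ b ≠ 1 := by
        obtain ⟨b, hb⟩ := Subgroup.ne_bot_iff_exists_ne_one.mp hB
        exact ⟨b, b.2, fun h => hb (Subtype.ext h)⟩
      let H : Bool → Subgroup A := fun k => match k with
        | false => s.B i
        | true => Subgroup.zpowers u
      let X : Bool → Set A := fun k => match k with
        | false => Yᶜ
        | true => Y
      refine decomposes_of_ping_pong htf H ?_ hgen X ?_ ?_ ?_ hA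
      · intro k
        match k with
        | false => exact hB
        | true =>
          intro h
          exact hu.1 (Subgroup.zpowers_eq_bot.mp h)
      · intro k
        match k with
        | false => exact ⟨b * 1, hpp1 b hb hb1 1 (Or.inl (Or.inl rfl))⟩
        | true => exact ⟨1, Or.inl (Or.inl rfl)⟩
      · exact disjoint_compl_left
      · intro k
        match k with
        | false => exact hpp1
        | true => exact hpp2

end SideFn

end Pool.Agent.V1122.Ends
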