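import Mathlib
import Pool.Agent.V1122.Ends.Split

/-!
# Freely indecomposable subgroups of free products
-/

namespace Pool.Agent.V1122.Ends

open Function Monoid Monoid.CoprodI

universe u

variable {M : Bool → Type u} [∀ i, Group (M i)]

/-- the side function of a free product of two groups -/
noncomputable def coprodSide (M : Bool → Type u) [∀ i, Group (M i)] : SideFn (CoprodI M) where
  t g := (ft g).getD false
  len g := slen g
  len_pos g hg := slen_pos hg
  len_inv g := slen_inv g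
  t_mul g h hg hh e := by
    have e' : ft g⁻¹ ≠ ft h := fun h' => e (by rw [h'])
    rw [(ft_mul hg hh e').1]
  len_mul g h hg hh e := by
    have e' : ft g⁻¹ ≠ ft h := fun h' => e (by rw [h'])
    exact (ft_mul hg hh e').2

lemma ft_eq_t {g : CoprodI M} (hg : g ≠ 1) : ft g = some ((coprodSide M).t g) := by
  obtain ⟨i, hi⟩ := ft_ne_none hg
  change ft g = some ((ft g).getD false)
  rw [hi]; rfl

lemma t_of {i : Bool} {x : M i} (hx : x ≠ 1) : (coprodSide M).t (of x) = i := by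
  change (ft (of x : CoprodI M)).getD false = i
  rw [ft_of hx]; rfl

lemma of_ne_one {i : Bool} {x : M i} (hx : x ≠ 1) : (of x : CoprodI M) ≠ 1 := fun h =>
  hx (of_injective i (h.trans (map_one _).symm))

lemma head_decomp' {g : CoprodI M} (hg : g ≠ 1) {i : Bool} (hi : (coprodSide M).t g = i) :
    ∃ (x : M i) (c : CoprodI M), x ≠ 1 ∧ g = of x * c ∧
      (c = 1 ∨ (c ≠ 1 ∧ (coprodSide M).t c ≠ i ∧
        (coprodSide M).len g = (coprodSide M).len c + 1)) := by
  have h1 : ft g = some i := by rw [ft_eq_t hg, hi]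
  obtain ⟨x, c, hx, hg', h⟩ := head_decomp h1
  refine ⟨x, c, hx, hg', ?_⟩
  rcases h with h | ⟨h2, h3, h4⟩
  · exact Or.inl h
  · refine Or.inr ⟨h2, ?_, h4⟩
    intro h5
    apply h3
    rw [ft_eq_t h2, h5]

/-- **Freely indecomposable noncyclic torsion-free subgroups of a free product are conjugate into
a factor.** -/
theorem conj_into_factor {A : Type u} [Group A] (f : A →* CoprodI M) (hf : Injective f)
    (htf : ∀ g : A, g ≠ 1 → ¬ IsOfFinOrder g) (hA : FreelyIndecomposable A)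
    (hnc : ¬ IsCyclic A) :
    ∃ (g : CoprodI M) (i : Bool), ∀ a, ∃ x : M i, g⁻¹ * f a * g = of x := by
  set s := coprodSide M with hs
  -- no mixed elements in conjugates
  have hNM : ∀ (g : CoprodI M) (a : A), a ≠ 1 →
      s.t (g⁻¹ * f a * g) = s.t (g⁻¹ * f a * g)⁻¹ := by
    intro g a ha
    by_contra h
    apply hnc
    let F : A →* CoprodI M := (MulAut.conj g⁻¹).toMonoidHom.comp f
    have hF : Injective F := (MulAut.conj g⁻¹).injective.comp hf
    have hFa : ∀ a, F a = g⁻¹ * f a * g := by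
      intro a
      change g⁻¹ * f a * g⁻¹⁻¹ = _
      rw [inv_inv]
    refine (s.comap F hF).cyclic_of_mixed htf hA a ha ?_
    change s.t (F a) ≠ s.t (F a⁻¹)
    rw [map_inv, hFa]
    exact h
  have hne1 : ∀ (g : CoprodI M) (a : A), a ≠ 1 → g⁻¹ * f a * g ≠ 1 := by
    intro g a ha h
    apply ha
    apply hf
    have e : f a = g * (g⁻¹ * f a * g) * g⁻¹ := by group
    rw [e, h]; simp
  obtain ⟨hnt, -⟩ := id hA
  obtain ⟨a₁, ha₁⟩ := exists_ne (1 : A)
  -- minimal length
  let S : Set ℕ := {n | ∃ (g : CoprodI M) (a : A), a ≠ 1 ∧ s.len (g⁻¹ * f a * g) = n}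
  have hS : S.Nonempty := ⟨_, 1, a₁, ha₁, rfl⟩
  obtain ⟨g, a, ha, hmin⟩ : ∃ (g : CoprodI M) (a : A), a ≠ 1 ∧
      ∀ (g' : CoprodI M) (a' : A), a' ≠ 1 → s.len (g⁻¹ * f a * g) ≤ s.len (g'⁻¹ * f a' * g') := by
    obtain ⟨g, a, ha, h⟩ := Nat.sInf_mem hS
    refine ⟨g, a, ha, fun g' a' ha' => ?_⟩
    rw [h]
    exact Nat.sInf_le ⟨g', a', ha', rfl⟩
  obtain ⟨x, hx⟩ : ∃ x, g⁻¹ * f a * g = x := ⟨_, rfl⟩
  have hx1 : x ≠ 1 := by rw [← hx]; exact hne1 g a ha
  obtain ⟨i, hi⟩ : ∃ i, s.t x = i := ⟨_, rfl⟩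
  have hlen_of : ∀ (i : Bool) (m : M i), m ≠ 1 → s.len (of m) = 1 := fun i m hm => slen_of hm
  have ht_of : ∀ (i : Bool) (m : M i), m ≠ 1 → s.t (of m) = i := fun i m hm => t_of hm
  obtain ⟨m, c, hm, hxc, hc⟩ := head_decomp' hx1 hi
  have hxof : x = of m := by
    rcases hc with rfl | ⟨hc1, hc2, hc3⟩
    · rw [hxc, mul_one]
    · exfalso
      have hmi : s.t (of m)⁻¹ = i := by rw [← map_inv]; exact ht_of i _ (inv_ne_one.mpr hm)
      -- `x⁻¹ = c⁻¹ m⁻¹`
      have h1 : s.t x⁻¹ = s.t c⁻¹ := by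
        rw [hxc, mul_inv_rev]
        refine s.t_mul _ _ (inv_ne_one.mpr hc1) (inv_ne_one.mpr (of_ne_one hm)) ?_
        rw [inv_inv, hmi]; exact hc2
      have h2 : s.t c⁻¹ = i := by
        rw [← h1, ← hx, ← hNM g a ha, hx, hi]
      obtain ⟨m', c', hm', hcc, hc'⟩ := head_decomp' (inv_ne_one.mpr hc1) h2
      have hcc' : c = c'⁻¹ * (of m')⁻¹ := by rw [← mul_inv_rev, ← hcc, inv_inv]
      rcases hc' with rfl | ⟨hc'1, hc'2, hc'3⟩
      · apply hc2
        rw [hcc', inv_one, one_mul, ← map_inv]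
        exact ht_of i _ (inv_ne_one.mpr hm')
      · -- the conjugate by `of m`
        have h3 := hmin (g * of m) a ha
        have e1 : (g * of m)⁻¹ * f a * (g * of m) = c'⁻¹ * of (m'⁻¹ * m) := by
          have : (g * of m)⁻¹ * f a * (g * of m) = (of m)⁻¹ * (g⁻¹ * f a * g) * of m := by group
          rw [this, hx, hxc, hcc', map_mul, map_inv]; group
        rw [hx, e1] at h3
        have h4 : s.len c = s.len c' + 1 := by rw [← s.len_inv c]; exact hc'3
        by_cases h5 : m'⁻¹ * m = 1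
        · rw [h5, map_one, mul_one, s.len_inv] at h3
          have h6 : s.len x = s.len c + 1 := hc3
          omega
        · have h6 : s.len (c'⁻¹ * of (m'⁻¹ * m)) = s.len c'⁻¹ + s.len (of (m'⁻¹ * m)) := by
            refine s.len_mul _ _ (inv_ne_one.mpr hc'1) (of_ne_one h5) ?_
            rw [inv_inv, ht_of i _ h5]; exact hc'2
          rw [h6, s.len_inv, hlen_of i _ h5] at h3
          have h7 : s.len x = s.len c + 1 := hc3
          omega
  -- elements starting on the other side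
  have hother : ∀ (g' : CoprodI M) (m : M i), m ≠ 1 → (∃ a, a ≠ 1 ∧ g'⁻¹ * f a * g' = of m) →
      ∀ b, b ≠ 1 → s.t (g'⁻¹ * f b * g') = i := by
    rintro g' m hm ⟨a, ha, hax⟩ b hb
    by_contra hty
    set y := g'⁻¹ * f b * g' with hy
    have hy1 : y ≠ 1 := hne1 g' b hb
    have hyt : s.t y⁻¹ ≠ i := by rw [← hNM g' b hb]; exact hty
    have hmi : s.t (of m)⁻¹ = i := by rw [← map_inv]; exact ht_of i _ (inv_ne_one.mpr hm)
    have e1 : s.t (of m)⁻¹ ≠ s.t y := by rw [hmi]; exact fun h => hty h.symm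
    have h1 : s.t (of m * y) = i := by
      rw [s.t_mul _ _ (of_ne_one hm) hy1 e1, ht_of i _ hm]
    have h2 : s.t (of m * y)⁻¹ = s.t y⁻¹ := by
      rw [mul_inv_rev]
      refine s.t_mul _ _ (inv_ne_one.mpr hy1) (inv_ne_one.mpr (of_ne_one hm)) ?_
      rw [inv_inv, hmi]; exact hty
    have h3 : g'⁻¹ * f (a * b) * g' = of m * y := by
      rw [map_mul, ← hax, hy]; group
    have hab : a * b ≠ 1 := by
      intro h
      rw [h, map_one, mul_one, inv_mul_cancel] at h3
      exact s.mul_ne_one e1 h3.symm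
    have h4 := hNM g' (a * b) hab
    rw [h3, h1, h2] at h4
    exact hyt h4.symm
  refine ⟨g, i, fun b => ?_⟩
  by_cases hb : b = 1
  · exact ⟨1, by rw [hb, map_one, map_one]; group⟩
  · have h1 := hother g m hm ⟨a, ha, by rw [hx, hxof]⟩ b hb
    obtain ⟨y, hy⟩ : ∃ y, g⁻¹ * f b * g = y := ⟨_, rfl⟩
    have hy1 : y ≠ 1 := by rw [← hy]; exact hne1 g b hb
    rw [hy] at h1 ⊢
    obtain ⟨m', c, hm', hyc, hc⟩ := head_decomp' hy1 h1
    rcases hc with rfl | ⟨hc1, hc2, hc3⟩
    · exact ⟨m', by rw [hyc, mul_one]⟩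
    · exfalso
      -- conjugate by `of m'`
      have hmm : m'⁻¹ * m * m' ≠ 1 := by
        intro h
        apply hm
        have e : m = m' * (m'⁻¹ * m * m') * m'⁻¹ := by group
        rw [e, h]; simp
      have h2 := hother (g * of m') (m'⁻¹ * m * m') hmm ⟨a, ha, by
        have e : (g * of m')⁻¹ * f a * (g * of m') = (of m')⁻¹ * (g⁻¹ * f a * g) * of m' := by
          group
        rw [e, hx, hxof, map_mul, map_mul, map_inv]⟩ b hb
      have e2 : (g * of m')⁻¹ * f b * (g * of m') = c * of m' := by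
        have e : (g * of m')⁻¹ * f b * (g * of m') = (of m')⁻¹ * (g⁻¹ * f b * g) * of m' := by
          group
        rw [e, hy, hyc]; group
      rw [e2] at h2
      have hne : c * of m' ≠ 1 := by rw [← e2]; exact hne1 _ b hb
      have h3 := s.len_mul c⁻¹ (c * of m') (inv_ne_one.mpr hc1) hne (by
        rw [inv_inv, h2]; exact hc2)
      rw [inv_mul_cancel_left, hlen_of i _ hm'] at h3
      have h4 := s.len_pos _ (inv_ne_one.mpr hc1)
      have h5 := s.len_pos _ hne
      omega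

end Pool.Agent.V1122.Ends
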