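import Mathlib
import Pool.Agent.V1122.Ends.Kurosh

/-!
# The group `⟨a_n, b_n | a_n = a_{n+1}² b_n²⟩`
-/

namespace Pool.Agent.V1122.Ends

open Function Monoid

/-- the relations -/
def rels : Set (FreeGroup (ℕ ⊕ ℕ)) :=
  Set.range fun n => (FreeGroup.of (Sum.inl n))⁻¹ *
    ((FreeGroup.of (Sum.inl (n + 1))) ^ 2 * (FreeGroup.of (Sum.inr n)) ^ 2)

/-- The group with generators `a_n, b_n` (`n ≥ 0`) and relations `a_n = a_{n+1}² b_n²`. -/
abbrev Gam : Type := PresentedGroup rels

/-- the generator `a_n` -/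
def a (n : ℕ) : Gam := PresentedGroup.of (Sum.inl n)

/-- the generator `b_n` -/
def b (n : ℕ) : Gam := PresentedGroup.of (Sum.inr n)

lemma a_rel (n : ℕ) : a n = (a (n + 1)) ^ 2 * (b n) ^ 2 := by
  have h : PresentedGroup.mk rels ((FreeGroup.of (Sum.inl n))⁻¹ *
    ((FreeGroup.of (Sum.inl (n + 1))) ^ 2 * (FreeGroup.of (Sum.inr n)) ^ 2)) = 1 :=
    PresentedGroup.one_of_mem ⟨n, rfl⟩
  rw [map_mul, map_inv, map_mul, map_pow, map_pow] at h
  exact inv_mul_eq_one.mp h

instance : Countable Gam := (PresentedGroup.mk_surjective rels).countable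

section hom

variable {Q : Type*} [Group Q]

/-- homomorphisms out of `Gam` -/
def homG (α β : ℕ → Q) (h : ∀ n, α n = (α (n + 1)) ^ 2 * (β n) ^ 2) : Gam →* Q :=
  PresentedGroup.toGroup (f := Sum.elim α β) (by
    rintro _ ⟨n, rfl⟩
    simp only [map_mul, map_inv, map_pow, FreeGroup.lift_apply_of, Sum.elim_inl, Sum.elim_inr]
    rw [h n]; group)

@[simp] lemma homG_a (α β : ℕ → Q) (h : ∀ n, α n = (α (n + 1)) ^ 2 * (β n) ^ 2) (n : ℕ) :
    homG α β h (a n) = α n := PresentedGroup.toGroup.of _

@[simp] lemma homG_b (α β : ℕ → Q) (h : ∀ n, α n = (α (n + 1)) ^ 2 * (β n) ^ 2) (n : ℕ) :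
    homG α β h (b n) = β n := PresentedGroup.toGroup.of _

lemma hom_ext {f g : Gam →* Q} (h1 : ∀ n, f (a n) = g (a n)) (h2 : ∀ n, f (b n) = g (b n)) :
    f = g := by
  apply PresentedGroup.ext
  rintro (n | n)
  · exact h1 n
  · exact h2 n

/-- the sequence determined by the recursion -/
def alp : ℕ → (ℕ → Q) → ℕ → Q
  | 0, _, _ => 1
  | N + 1, β, 0 => (alp N (fun n => β (n + 1)) 0) ^ 2 * (β 0) ^ 2
  | N + 1, β, n + 1 => alp N (fun n => β (n + 1)) n

lemma alp_rel (N : ℕ) : ∀ (β : ℕ → Q), (∀ n ≥ N, β n = 1) →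
    ∀ n, alp N β n = (alp N β (n + 1)) ^ 2 * (β n) ^ 2 := by
  induction N with
  | zero => intro β hβ n; simp [alp, hβ n (Nat.zero_le _)]
  | succ N ih =>
    intro β hβ n
    match n with
    | 0 => rfl
    | n + 1 => exact ih (fun n => β (n + 1)) (fun n hn => hβ (n + 1) (by omega)) n

lemma alp_ge (N : ℕ) : ∀ (β : ℕ → Q) (n : ℕ), N ≤ n → alp N β n = 1 := by
  induction N with
  | zero => intro β n _; rfl
  | succ N ih =>
    intro β n hn
    match n with
    | 0 => omega
    | n + 1 => exact ih _ n (by omega)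

lemma alp_map {Q' : Type*} [Group Q'] (f : Q →* Q') (N : ℕ) : ∀ (β : ℕ → Q) (n : ℕ),
    f (alp N β n) = alp N (fun n => f (β n)) n := by
  induction N with
  | zero => intro β n; exact map_one f
  | succ N ih =>
    intro β n
    match n with
    | 0 =>
      change f ((alp N (fun n => β (n + 1)) 0) ^ 2 * (β 0) ^ 2) = _
      rw [map_mul, map_pow, map_pow, ih]; rfl
    | n + 1 => exact ih _ n

/-- the homomorphism determined by finitely many values `β n` -/
def homN (N : ℕ) (β : ℕ → Q) (hβ : ∀ n ≥ N, β n = 1) : Gam →* Q :=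
  homG (alp N β) β (alp_rel N β hβ)

end hom

/-- truncated generators -/
def tr (N n : ℕ) : FreeGroup ℕ := if n < N then FreeGroup.of n else 1

/-- the quotient killing `a_n` and `b_n` for `n ≥ N` -/
def piN (N : ℕ) : Gam →* FreeGroup ℕ :=
  homN N (tr N) (fun n hn => by rw [tr, if_neg (by omega)])

lemma piN_b (N n : ℕ) : piN N (b n) = tr N n := by rw [piN, homN, homG_b]

lemma piN_a (N n : ℕ) : piN N (a n) = alp N (tr N) n := by rw [piN, homN, homG_a]

/-- the shift -/
def sig : Gam →* Gam := homG (fun n => a (n + 1)) (fun n => b (n + 1)) (fun n => a_rel (n + 1))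

lemma sig_a (n : ℕ) : sig (a n) = a (n + 1) := homG_a _ _ _ n

lemma sig_b (n : ℕ) : sig (b n) = b (n + 1) := homG_b _ _ _ n

/-- the shift of the free group -/
def shf : FreeGroup ℕ →* FreeGroup ℕ := FreeGroup.map Nat.succ

lemma shf_tr (N n : ℕ) : shf (tr N n) = tr (N + 1) (n + 1) := by
  unfold tr shf
  by_cases h : n < N
  · rw [if_pos h, if_pos (by omega), FreeGroup.map.of]
  · rw [if_neg h, if_neg (by omega), map_one]

lemma piN_sig (N : ℕ) (x : Gam) : piN (N + 1) (sig x) = shf (piN N x) := by
  have : (piN (N + 1)).comp sig = shf.comp (piN N) := by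
    apply hom_ext
    · intro n
      rw [MonoidHom.comp_apply, MonoidHom.comp_apply, sig_a, piN_a, piN_a, alp_map]
      change alp N (fun n => tr (N + 1) (n + 1)) n = _
      congr 1
      funext n
      rw [shf_tr]
    · intro n
      rw [MonoidHom.comp_apply, MonoidHom.comp_apply, sig_b, piN_b, piN_b, shf_tr]
  exact DFunLike.congr_fun this x

lemma piN_zero (x : Gam) : piN 0 x = 1 := by
  have : piN 0 = 1 := by
    apply hom_ext
    · intro n; rw [piN_a]; rfl
    · intro n; rw [piN_b, tr, if_neg (by omega)]; rfl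
  rw [this]; rfl

/-! ### Residual property -/

/-- the map from a free group of rank `N + 1` -/
def jN (N : ℕ) : FreeGroup (Fin (N + 1)) →* Gam :=
  FreeGroup.lift fun i => if (i : ℕ) = N then a N else b i

lemma piN_jN (N : ℕ) (x : FreeGroup (Fin (N + 1))) : piN (N + 1) (jN N x) =
    FreeGroup.lift (fun i : Fin (N + 1) => (FreeGroup.of (i : ℕ)) ^
      (if (i : ℕ) = N then 2 else 1)) x := by
  have : (piN (N + 1)).comp (jN N) = FreeGroup.lift (fun i : Fin (N + 1) =>
      (FreeGroup.of (i : ℕ)) ^ (if (i : ℕ) = N then 2 else 1)) := by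
    ext1 i
    rw [MonoidHom.comp_apply, jN, FreeGroup.lift_apply_of, FreeGroup.lift_apply_of]
    have hi := i.2
    by_cases h : (i : ℕ) = N
    · rw [if_pos h, if_pos h, piN_a,
        alp_rel (N + 1) (tr (N + 1)) (fun n hn => by rw [tr, if_neg (by omega)]) N,
        alp_ge (N + 1) _ _ le_rfl, one_pow, one_mul, tr, if_pos (by omega), h]
    · rw [if_neg h, if_neg h, piN_b, tr, if_pos hi, pow_one]
  exact DFunLike.congr_fun this x

lemma a_mem (N : ℕ) : a N ∈ (jN N).range :=
  ⟨FreeGroup.of (Fin.last N), by rw [jN, FreeGroup.lift_apply_of, Fin.val_last, if_pos rfl]⟩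

lemma b_mem {N n : ℕ} (h : n < N) : b n ∈ (jN N).range :=
  ⟨FreeGroup.of ⟨n, by omega⟩, by rw [jN, FreeGroup.lift_apply_of, if_neg (by simp; omega)]⟩

lemma range_mono_succ (N : ℕ) : (jN N).range ≤ (jN (N + 1)).range := by
  rintro _ ⟨x, rfl⟩
  induction x using FreeGroup.induction_on with
  | C1 => rw [map_one]; exact one_mem _
  | of i =>
    have e : jN N (FreeGroup.of i) = if (i : ℕ) = N then a N else b i := FreeGroup.lift_apply_of
    rw [e]
    by_cases h : (i : ℕ) = N
    · rw [if_pos h, a_rel]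
      exact mul_mem (pow_mem (a_mem _) _) (pow_mem (b_mem (by omega)) _)
    · rw [if_neg h]; exact b_mem (by omega)
  | inv_of i h => rw [map_inv]; exact inv_mem h
  | mul x y hx hy => rw [map_mul]; exact mul_mem hx hy

lemma range_mono {N N' : ℕ} (h : N ≤ N') : (jN N).range ≤ (jN N').range := by
  induction N', h using Nat.le_induction with
  | base => exact le_rfl
  | succ N' _ ih => exact ih.trans (range_mono_succ N')

lemma exists_mem_range (x : Gam) : ∃ N, x ∈ (jN N).range := by
  have h : x ∈ Subgroup.closure (Set.range (PresentedGroup.of (rels := rels))) := by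
    rw [PresentedGroup.closure_range_of]; trivial
  refine Subgroup.closure_induction (p := fun x _ => ∃ N, x ∈ (jN N).range) ?_ ?_ ?_ ?_ h
  · rintro _ ⟨n | n, rfl⟩
    · exact ⟨n, a_mem n⟩
    · exact ⟨n + 1, b_mem (by omega)⟩
  · exact ⟨0, one_mem _⟩
  · rintro x y _ _ ⟨N, hx⟩ ⟨N', hy⟩
    exact ⟨max N N', mul_mem (range_mono (le_max_left _ _) hx) (range_mono (le_max_right _ _) hy)⟩
  · rintro x _ ⟨N, hx⟩
    exact ⟨N, inv_mem hx⟩

/-- **`Gam` is residually free**, through the maps `piN`. -/
theorem exists_piN_ne {x : Gam} (hx : x ≠ 1) : ∃ N, piN N x ≠ 1 := by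
  obtain ⟨N, y, rfl⟩ := exists_mem_range x
  refine ⟨N + 1, fun h => hx ?_⟩
  rw [piN_jN] at h
  have hinj := freeGroup_pow_injective (fun i : Fin (N + 1) => (i : ℕ)) Fin.val_injective
    (fun i => if (i : ℕ) = N then 2 else 1) (fun i => by split_ifs <;> simp)
  have : y = 1 := hinj (h.trans (map_one _).symm)
  rw [this, map_one]

theorem gam_torsionFree : ∀ x : Gam, x ≠ 1 → ¬ IsOfFinOrder x := by
  intro x hx h
  obtain ⟨N, hN⟩ := exists_piN_ne hx
  exact hN ((isOfFinOrder_iff_eq_one _).mp (MonoidHom.isOfFinOrder (piN N) h))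

/-! ### `Gam ≅ ℤ * Gam` -/

/-- the two factors -/
abbrev Fam : Bool → Type
  | false => Multiplicative ℤ
  | true => Gam

instance famGroup : ∀ i, Group (Fam i)
  | false => inferInstanceAs (Group (Multiplicative ℤ))
  | true => inferInstanceAs (Group Gam)

/-- embedding of `ℤ` -/
def inl : Multiplicative ℤ →* CoprodI Fam := CoprodI.of (M := Fam) (i := false)

/-- embedding of `Gam` -/
def inr : Gam →* CoprodI Fam := CoprodI.of (M := Fam) (i := true)

/-- the map `Gam → ℤ * Gam` -/
def Psi : Gam →* CoprodI Fam :=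
  homG (fun n => match n with
    | 0 => (inr (a 0)) ^ 2 * (inl (Multiplicative.ofAdd 1)) ^ 2
    | n + 1 => inr (a n))
    (fun n => match n with
    | 0 => inl (Multiplicative.ofAdd 1)
    | n + 1 => inr (b n))
    (fun n => match n with
    | 0 => rfl
    | n + 1 => by
      change inr (a n) = (inr (a (n + 1))) ^ 2 * (inr (b n)) ^ 2
      rw [← map_pow, ← map_pow, ← map_mul, ← a_rel])

/-- the map `ℤ * Gam → Gam` -/
def Phi : CoprodI Fam →* Gam :=
  CoprodI.lift (fun i => match i with
    | false => (zpowersHom Gam (b 0) : Multiplicative ℤ →* Gam)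
    | true => sig)

lemma Phi_inl (x : Multiplicative ℤ) : Phi (inl x) = (b 0) ^ (Multiplicative.toAdd x) := by
  unfold Phi inl
  rw [CoprodI.lift_of]; rfl

lemma Phi_inr (x : Gam) : Phi (inr x) = sig x := by
  unfold Phi inr
  rw [CoprodI.lift_of]

lemma Psi_Phi (x : CoprodI Fam) : Psi (Phi x) = x := by
  have : Psi.comp Phi = MonoidHom.id _ := by
    apply CoprodI.ext_hom
    intro i
    match i with
    | false =>
      apply MonoidHom.ext_mint
      change Psi (Phi (inl (Multiplicative.ofAdd 1))) = inl (Multiplicative.ofAdd 1)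
      rw [Phi_inl, toAdd_ofAdd, zpow_one]
      exact homG_b _ _ _ 0
    | true =>
      apply hom_ext
      · intro n
        change Psi (Phi (inr (a n))) = inr (a n)
        rw [Phi_inr, sig_a]
        exact homG_a _ _ _ (n + 1)
      · intro n
        change Psi (Phi (inr (b n))) = inr (b n)
        rw [Phi_inr, sig_b]
        exact homG_b _ _ _ (n + 1)
  exact DFunLike.congr_fun this x

lemma Phi_Psi (x : Gam) : Phi (Psi x) = x := by
  have : Phi.comp Psi = MonoidHom.id _ := by
    apply hom_ext
    · intro n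
      match n with
      | 0 =>
        have h : Psi (a 0) = (inr (a 0)) ^ 2 * (inl (Multiplicative.ofAdd 1)) ^ 2 :=
          homG_a _ _ _ 0
        rw [MonoidHom.comp_apply, h, map_mul, map_pow, map_pow, Phi_inr, Phi_inl, sig_a,
          toAdd_ofAdd, zpow_one, ← a_rel]; rfl
      | n + 1 =>
        have h : Psi (a (n + 1)) = inr (a n) := homG_a _ _ _ (n + 1)
        rw [MonoidHom.comp_apply, h, Phi_inr, sig_a]; rfl
    · intro n
      match n with
      | 0 =>
        have h : Psi (b 0) = inl (Multiplicative.ofAdd 1) := homG_b _ _ _ 0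
        rw [MonoidHom.comp_apply, h, Phi_inl, toAdd_ofAdd, zpow_one]; rfl
      | n + 1 =>
        have h : Psi (b (n + 1)) = inr (b n) := homG_b _ _ _ (n + 1)
        rw [MonoidHom.comp_apply, h, Phi_inr, sig_b]; rfl
  exact DFunLike.congr_fun this x

lemma Psi_injective : Injective Psi := LeftInverse.injective Phi_Psi

lemma Phi_injective : Injective Phi := LeftInverse.injective Psi_Phi

/-- a homomorphism with values in a factor -/
lemma factor_hom {A : Type} [Group A] {M : Bool → Type} [∀ i, Group (M i)]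
    (F : A →* CoprodI M) (hF : Injective F) (i : Bool)
    (h : ∀ x, ∃ y : M i, F x = CoprodI.of y) :
    ∃ f : A →* M i, Injective f ∧ ∀ x, F x = CoprodI.of (f x) := by
  choose f hf using h
  have hinj := CoprodI.of_injective (M := M) i
  refine ⟨⟨⟨f, ?_⟩, ?_⟩, ?_, hf⟩
  · apply hinj
    rw [← hf, map_one, map_one]
  · intro x y
    apply hinj
    rw [map_mul, ← hf, ← hf, ← hf, map_mul]
  · intro x y hxy
    apply hF
    rw [hf, hf]
    exact congrArg _ hxy

/-- **Freely indecomposable subgroups of `Gam` are cyclic.** -/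
theorem cyclic_of_indec {A : Type} [Group A] (hA : FreelyIndecomposable A) (f : A →* Gam)
    (hf : Injective f) : IsCyclic A := by
  by_contra hnc
  have htf : ∀ g : A, g ≠ 1 → ¬ IsOfFinOrder g := by
    intro g hg h
    exact gam_torsionFree (f g) (fun h' => hg (hf (h'.trans (map_one f).symm)))
      (MonoidHom.isOfFinOrder f h)
  have key : ∀ N : ℕ, ∀ f : A →* Gam, Injective f → ∀ x, piN N (f x) = 1 := by
    intro N
    induction N with
    | zero => intro f _ x; exact piN_zero _
    | succ N ih =>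
      intro f hf x
      obtain ⟨g, i, hg⟩ := conj_into_factor (Psi.comp f) (Psi_injective.comp hf) htf hA hnc
      let F : A →* CoprodI Fam := (MulAut.conj g⁻¹).toMonoidHom.comp (Psi.comp f)
      have hF : Injective F := (MulAut.conj g⁻¹).injective.comp (Psi_injective.comp hf)
      have hFa : ∀ a, F a = g⁻¹ * Psi (f a) * g := by
        intro a
        change g⁻¹ * Psi (f a) * g⁻¹⁻¹ = _
        rw [inv_inv]
      obtain ⟨f', hf', hFf'⟩ := factor_hom F hF i (fun x => by
        obtain ⟨y, hy⟩ := hg x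
        exact ⟨y, by rw [hFa]; exact hy⟩)
      match i, f', hf', hFf' with
      | false, f', hf', _ =>
        exfalso
        exact hnc (isCyclic_of_injective (G' := Multiplicative ℤ) f' hf')
      | true, f', hf', hFf' =>
        have h1 : sig (f' x) = (Phi g)⁻¹ * f x * Phi g := by
          have h2 := congrArg Phi (hFf' x)
          rw [hFa, map_mul, map_mul, map_inv, Phi_Psi] at h2
          rw [h2]
          exact (Phi_inr (f' x)).symm
        have h3 := piN_sig N (f' x)
        rw [ih f' hf' x, map_one, h1, map_mul, map_mul, map_inv] at h3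
        have h4 : piN (N + 1) (f x) = piN (N + 1) (Phi g) *
            ((piN (N + 1) (Phi g))⁻¹ * piN (N + 1) (f x) * piN (N + 1) (Phi g)) *
              (piN (N + 1) (Phi g))⁻¹ := by group
        rw [h4, h3]; group
  obtain ⟨hnt, -⟩ := hA
  obtain ⟨x, hx⟩ := exists_ne (1 : A)
  have hx' : f x ≠ 1 := fun h' => hx (hf (h'.trans (map_one f).symm))
  obtain ⟨N, hN⟩ := exists_piN_ne hx'
  exact hN (key N f hf x)

/-! ### `Gam` is not finitely generated -/

/-- characters detecting `b_i` -/
def chi (i : ℕ) : Gam →* Multiplicative (ZMod 2) :=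
  homG (fun _ => 1) (fun n => if n = i then Multiplicative.ofAdd 1 else 1) (by
    intro n
    by_cases h : n = i
    · rw [if_pos h]; decide
    · rw [if_neg h]; simp)

lemma chi_finite (x : Gam) : {i | chi i x ≠ 1}.Finite := by
  have h : x ∈ Subgroup.closure (Set.range (PresentedGroup.of (rels := rels))) := by
    rw [PresentedGroup.closure_range_of]; trivial
  refine Subgroup.closure_induction (p := fun x _ => ({i | chi i x ≠ 1} : Set ℕ).Finite)
    ?_ ?_ ?_ ?_ h
  · rintro _ ⟨n | n, rfl⟩
    · have : {i | chi i (a n) ≠ 1} = ∅ := by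
        ext i
        simp [chi]
      change {i | chi i (a n) ≠ 1}.Finite
      rw [this]; exact Set.finite_empty
    · have : {i | chi i (b n) ≠ 1} ⊆ {n} := by
        intro i hi
        by_contra h
        apply hi
        rw [chi, homG_b, if_neg]
        intro h'; exact h h'.symm
      exact (Set.finite_singleton n).subset this
  · have : {i | chi i (1 : Gam) ≠ 1} = ∅ := by
      ext i; simp
    rw [this]; exact Set.finite_empty
  · intro x y _ _ hx hy
    refine (hx.union hy).subset ?_
    intro i hi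
    by_contra h
    rw [Set.mem_union, not_or] at h
    apply hi
    rw [map_mul, not_not.mp h.1, not_not.mp h.2, mul_one]
  · intro x _ hx
    refine hx.subset ?_
    intro i hi h
    apply hi
    rw [map_inv, h, inv_one]

theorem gam_not_fg (S : Set Gam) (hS : S.Finite) : Subgroup.closure S ≠ ⊤ := by
  intro h
  have h1 : (⋃ s ∈ S, {i | chi i s ≠ 1}).Finite := hS.biUnion fun s _ => chi_finite s
  obtain ⟨i, hi⟩ := h1.exists_notMem
  have h2 : Subgroup.closure S ≤ (chi i).ker := by
    rw [Subgroup.closure_le]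
    intro s hs
    by_contra h'
    exact hi (Set.mem_iUnion₂.mpr ⟨s, hs, h'⟩)
  have h3 : b i ∈ (chi i).ker := h2 (by rw [h]; trivial)
  have h4 : chi i (b i) = 1 := h3
  rw [chi, homG_b, if_pos rfl] at h4
  exact absurd h4 (by decide)

/-- `G` is a free product of finitely many freely indecomposable groups. -/
def FiniteKuroshRank (G : Type) [Group G] : Prop :=
  ∃ (n : ℕ) (H : Fin n → Type) (_ : ∀ i, Group (H i)), (∀ i, FreelyIndecomposable (H i)) ∧
    Nonempty (G ≃* CoprodI H)

theorem gam_not_finiteKurosh : ¬ FiniteKuroshRank Gam := by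
  rintro ⟨n, H, _, hH, ⟨e⟩⟩
  have hc : ∀ i, IsCyclic (H i) := by
    intro i
    refine cyclic_of_indec (hH i) (e.symm.toMonoidHom.comp CoprodI.of) ?_
    exact e.symm.injective.comp (CoprodI.of_injective i)
  choose g hg using fun i => (hc i).exists_generator
  refine gam_not_fg (Set.range fun i => e.symm (CoprodI.of (g i))) (Set.finite_range _) ?_
  rw [eq_top_iff]
  intro x _
  have key : ∀ y : CoprodI H, e.symm y ∈
      Subgroup.closure (Set.range fun i => e.symm (CoprodI.of (g i))) := by
    intro y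
    induction y using CoprodI.induction_on with
    | one => rw [map_one]; exact one_mem _
    | of i y =>
      obtain ⟨k, rfl⟩ := Subgroup.mem_zpowers_iff.mp (hg i y)
      rw [map_zpow, map_zpow]
      exact zpow_mem (Subgroup.subset_closure (Set.mem_range_self i)) k
    | mul x y hx hy => rw [map_mul]; exact mul_mem hx hy
  have := key (e x)
  rwa [e.symm_apply_apply] at this

end Pool.Agent.V1122.Ends
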