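import Mathlib
import Pool.Agent.V1122.Ends.Gam

/-!
# The space of ends of `Gam`
-/

namespace Pool.Agent.V1122.Ends

open Function Monoid

section defs

variable (G : Type*) [Group G]

lemma symmDiff_image (A : Set G) (g : G) :
    symmDiff A ((fun x => x * g) '' A) = {x | ¬ (x ∈ A ↔ x * g⁻¹ ∈ A)} := by
  ext x
  have h : x ∈ (fun x => x * g) '' A ↔ x * g⁻¹ ∈ A := by
    constructor
    · rintro ⟨y, hy, rfl⟩
      simpa using hy
    · intro h
      exact ⟨_, h, by simp⟩
  rw [Set.mem_symmDiff, h, Set.mem_ofPred_eq]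
  tauto

/-- The Boolean algebra `𝒫_G(G)` of the subsets `A` of `G` for which `A △ A g` is finite for
every `g`. -/
def AlmostInvariant : BooleanSubalgebra (Set G) where
  carrier := {A | ∀ g : G, (symmDiff A ((fun x => x * g) '' A)).Finite}
  supClosed' := by
    intro A hA B hB g
    have h1 := hA g
    have h2 := hB g
    rw [symmDiff_image] at h1 h2 ⊢
    refine (h1.union h2).subset ?_
    intro x hx
    simp only [Set.sup_eq_union, Set.mem_union, Set.mem_ofPred_eq] at hx ⊢
    tauto
  infClosed' := by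
    intro A hA B hB g
    have h1 := hA g
    have h2 := hB g
    rw [symmDiff_image] at h1 h2 ⊢
    refine (h1.union h2).subset ?_
    intro x hx
    simp only [Set.inf_eq_inter, Set.mem_inter_iff, Set.mem_union, Set.mem_ofPred_eq] at hx ⊢
    tauto
  compl_mem' := by
    intro A hA g
    have h1 := hA g
    rw [symmDiff_image] at h1 ⊢
    refine h1.subset ?_
    intro x hx
    simp only [Set.mem_compl_iff, Set.mem_ofPred_eq] at hx ⊢
    tauto
  bot_mem' := by
    intro g
    rw [symmDiff_image]
    simp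

/-- The space of ends `ℰ*(G)`: the Stone space of the quotient of `𝒫_G(G)` by the ideal of finite
subsets, that is, the space of homomorphisms of Boolean algebras `𝒫_G(G) → {0, 1}` which vanish
on finite sets, with the topology of pointwise convergence. -/
noncomputable def EndSpace : Type _ :=
  {f : BoundedLatticeHom (AlmostInvariant G) Bool //
    ∀ A : AlmostInvariant G, (A : Set G).Finite → f A = false}

noncomputable instance : TopologicalSpace (EndSpace G) :=
  TopologicalSpace.induced (fun f : EndSpace G => fun A : AlmostInvariant G => f.1 A)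
    inferInstance

/-- The space of ends is metrizable. -/
def MetrizablyEnded : Prop := TopologicalSpace.MetrizableSpace (EndSpace G)

lemma metrizablyEnded_of_countable [Countable (AlmostInvariant G)] : MetrizablyEnded G := by
  have h : Topology.IsEmbedding
      (fun f : EndSpace G => fun A : AlmostInvariant G => f.1 A) := by
    refine ⟨⟨rfl⟩, ?_⟩
    intro f g hfg
    apply Subtype.ext
    exact DFunLike.coe_injective hfg
  exact h.metrizableSpace

end defs

/-! ### The combinatorial lemma -/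

section comb

variable {Γ : Type*} [Group Γ]

lemma zmod2_add_self (x : ZMod 2) : x + x = 0 := by revert x; decide

lemma zmod2_eq_of_add {x y : ZMod 2} (h : x + y = 0) : x = y := by revert x y; decide

lemma finite_ints {F : Γ → ZMod 2} (hF : {x | F x ≠ 0}.Finite) {c : Γ} (hc : ¬ IsOfFinOrder c)
    (g : Γ) : ∃ K : ℕ, ∀ k : ℤ, K ≤ |k| → F (g * c ^ k) = 0 := by
  have hinj : Injective (fun k : ℤ => g * c ^ k) :=
    (mul_right_injective g).comp (injective_zpow_iff_not_isOfFinOrder.mpr hc)
  have h1 : {k : ℤ | F (g * c ^ k) ≠ 0}.Finite := hF.preimage hinj.injOn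
  obtain ⟨K, hK⟩ := (h1.image (fun k => k.natAbs)).bddAbove
  refine ⟨K + 1, fun k hk => ?_⟩
  by_contra h
  have h2 : k.natAbs ≤ K := hK ⟨k, h, rfl⟩
  have h3 : |k| ≤ K := by rw [Int.abs_eq_natAbs]; exact_mod_cast h2
  push_cast at hk
  omega

/-- if `F` is finitely supported and `F g + F (g c) ≠ 0`, then the same holds elsewhere on the
orbit -/
lemma exists_other {F : Γ → ZMod 2} (hF : {x | F x ≠ 0}.Finite) {c : Γ} (hc : ¬ IsOfFinOrder c)
    (g : Γ) (hg : F g + F (g * c) ≠ 0) :
    ∃ k : ℤ, k ≠ 0 ∧ F (g * c ^ k) + F (g * c ^ (k + 1)) ≠ 0 := by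
  by_contra hcon
  push Not at hcon
  obtain ⟨K, hK⟩ := finite_ints hF hc g
  have h1 : ∀ n : ℕ, F (g * c ^ ((n : ℤ) + 1)) = F (g * c) := by
    intro n
    induction n with
    | zero => simp
    | succ n ih =>
      rw [← ih]
      have := hcon ((n : ℤ) + 1) (by omega)
      push_cast
      exact (zmod2_eq_of_add this).symm
  have h2 : ∀ n : ℕ, F (g * c ^ (-(n : ℤ))) = F g := by
    intro n
    induction n with
    | zero => simp
    | succ n ih =>
      rw [← ih]
      have h3 := hcon (-(n : ℤ) - 1) (by omega)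
      have h4 := zmod2_eq_of_add h3
      have e1 : -(n : ℤ) - 1 + 1 = -(n : ℤ) := by ring
      have e2 : -(((n + 1 : ℕ)) : ℤ) = -(n : ℤ) - 1 := by push_cast; ring
      rw [e1] at h4
      rw [e2]
      exact h4
  have h5 : F (g * c) = 0 := by
    rw [← h1 K]
    refine hK _ ?_
    rw [abs_of_nonneg (by omega)]; omega
  have h6 : F g = 0 := by
    rw [← h2 K]
    refine hK _ ?_
    rw [abs_neg, abs_of_nonneg (by omega)]
  exact hg (by rw [h5, h6, add_zero])

lemma eq_zero_of_invariant {F : Γ → ZMod 2} (hF : {x | F x ≠ 0}.Finite) {c : Γ}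
    (hc : ¬ IsOfFinOrder c) (h : ∀ x, F x = F (x * c)) (x : Γ) : F x = 0 := by
  obtain ⟨K, hK⟩ := finite_ints hF hc x
  have h1 : ∀ n : ℕ, F (x * c ^ (n : ℤ)) = F x := by
    intro n
    induction n with
    | zero => simp
    | succ n ih =>
      rw [← ih, h (x * c ^ (n : ℤ)), mul_assoc, ← zpow_add_one]
      push_cast; rfl
  rw [← h1 K]
  refine hK _ ?_
  rw [abs_of_nonneg (by omega)]

lemma slen_one {M : Bool → Type} [∀ i, Group (M i)] : slen (1 : CoprodI M) = 0 := by
  have h2 : (1 : CoprodI M) = (CoprodI.Word.empty : CoprodI.Word M).prod :=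
    CoprodI.Word.prod_empty.symm
  rw [h2, slen_prod]; rfl

/-- an element which does not get longer by multiplying by a letter ends in the corresponding
factor -/
lemma ends_in {M : Bool → Type} [∀ i, Group (M i)] {g : CoprodI M} {i : Bool} {x : M i}
    (hx : x ≠ 1) (h : slen (g * CoprodI.of x) ≤ slen g) : g ≠ 1 ∧ ft g⁻¹ = some i := by
  have hg : g ≠ 1 := by
    rintro rfl
    rw [one_mul, slen_one, slen_of hx] at h
    omega
  refine ⟨hg, ?_⟩
  by_contra hne
  have h1 := (ft_mul hg (of_ne_one hx) (by rw [ft_of hx]; exact hne)).2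
  rw [slen_of hx] at h1
  omega

/-- **The key lemma.** -/
theorem key_lemma (p : Γ →* CoprodI (fun _ : Bool => Multiplicative ℤ)) (a b : Γ)
    (u v : Multiplicative ℤ) (hu : u ≠ 1) (hv : v ≠ 1)
    (ha : p a = CoprodI.of (i := false) u) (hb : p b = CoprodI.of (i := true) v)
    (χ : Γ → ZMod 2) (hχa : {x | χ (x * a) ≠ χ x}.Finite) (hχb : {x | χ (x * b) ≠ χ x}.Finite)
    (hinv : ∀ x, χ (x * (a ^ 2 * b ^ 2)) = χ x) :
    (∀ x, χ (x * a) = χ x) ∧ ∀ x, χ (x * b) = χ x := by
  have hinj : ∀ i, Injective (CoprodI.of (M := fun _ : Bool => Multiplicative ℤ) (i := i)) :=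
    fun i => CoprodI.of_injective i
  have hpow : ∀ (w : Multiplicative ℤ), w ≠ 1 → ∀ k : ℤ, k ≠ 0 → w ^ k ≠ 1 := by
    intro w hw k hk h
    exact hw ((IsMulTorsionFree.zpow_eq_one_iff_left hk).mp h)
  have hfin : ∀ (i : Bool) (c : Γ) (w : Multiplicative ℤ), w ≠ 1 →
      p c = CoprodI.of (M := fun _ : Bool => Multiplicative ℤ) (i := i) w → ¬ IsOfFinOrder c := by
    intro i c w hw hc h
    have h1 := MonoidHom.isOfFinOrder p h
    rw [hc] at h1
    obtain ⟨n, hn, h2⟩ := isOfFinOrder_iff_pow_eq_one.mp h1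
    rw [← map_pow] at h2
    have h3 := hinj i (h2.trans (map_one _).symm)
    refine hpow w hw n (by omega) ?_
    rw [zpow_natCast]; exact h3
  have hca := hfin false a u hu ha
  have hcb := hfin true b v hv hb
  let U : Γ → ZMod 2 := fun x => χ (x * a) + χ x
  let V : Γ → ZMod 2 := fun x => χ (x * b) + χ x
  have hU : {x | U x ≠ 0}.Finite := hχa.subset fun x hx h => hx (by
    change χ (x * a) + χ x = 0
    rw [h]; exact zmod2_add_self _)
  have hV : {x | V x ≠ 0}.Finite := hχb.subset fun x hx h => hx (by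
    change χ (x * b) + χ x = 0
    rw [h]; exact zmod2_add_self _)
  have hZW : ∀ x, V (x * a ^ 2) + V (x * a ^ 2 * b) = U x + U (x * a) := by
    intro x
    have h1 := hinv x
    change χ (x * a ^ 2 * b) + χ (x * a ^ 2) + (χ (x * a ^ 2 * b * b) + χ (x * a ^ 2 * b)) =
      χ (x * a) + χ x + (χ (x * a * a) + χ (x * a))
    have e1 : x * a ^ 2 * b * b = x * (a ^ 2 * b ^ 2) := by simp only [pow_two, mul_assoc]
    have e2 : x * a * a = x * a ^ 2 := by simp only [pow_two, mul_assoc]
    rw [e1, e2, h1]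
    generalize χ (x * a ^ 2 * b) = α
    generalize χ (x * a ^ 2) = β
    generalize χ x = γ
    generalize χ (x * a) = δ
    revert α β γ δ
    decide
  let Z : Γ → ZMod 2 := fun x => V x + V (x * b)
  have hZ : {x | Z x ≠ 0}.Finite := by
    have hV' : {x | V (x * b) ≠ 0}.Finite := hV.preimage (mul_left_injective b).injOn
    refine (hV.union hV').subset ?_
    intro x hx
    by_contra h
    rw [Set.mem_union, not_or] at h
    apply hx
    change V x + V (x * b) = 0
    rw [not_not.mp h.1, not_not.mp h.2, add_zero]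
  have hZ0 : ∀ x, Z x = 0 := by
    by_contra hcon
    push Not at hcon
    obtain ⟨g, hg, hmax⟩ : ∃ g, Z g ≠ 0 ∧ ∀ h, Z h ≠ 0 → slen (p h) ≤ slen (p g) := by
      obtain ⟨g, hg, hmax⟩ := hZ.exists_maximalFor (fun x => slen (p x)) _ hcon
      refine ⟨g, hg, fun h hh => ?_⟩
      by_contra hlt
      push Not at hlt
      have h' : slen (p h) ≤ slen (p g) := hmax hh hlt.le
      omega
    -- the two directions
    have hβ : ∃ k : ℤ, k ≠ 0 ∧ Z (g * b ^ k) ≠ 0 := by
      obtain ⟨k, hk, h⟩ := exists_other hV hcb g hg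
      refine ⟨k, hk, ?_⟩
      rw [zpow_add_one, ← mul_assoc] at h
      exact h
    have hα : ∃ k : ℤ, k ≠ 0 ∧ Z (g * a ^ k) ≠ 0 := by
      have e0 : ∀ y, Z y = U (y * (a ^ 2)⁻¹) + U (y * (a ^ 2)⁻¹ * a) := by
        intro y
        rw [← hZW (y * (a ^ 2)⁻¹)]
        change V y + V (y * b) = _
        have e : y * (a ^ 2)⁻¹ * a ^ 2 = y := by group
        rw [e]
      have hg' := hg
      rw [e0] at hg'
      obtain ⟨k, hk, h⟩ := exists_other hU hca _ hg'
      refine ⟨k, hk, ?_⟩
      rw [e0]
      have e1 : g * a ^ k * (a ^ 2)⁻¹ = g * (a ^ 2)⁻¹ * a ^ k := by group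
      have e2 : g * (a ^ 2)⁻¹ * a ^ (k + 1) = g * (a ^ 2)⁻¹ * a ^ k * a := by group
      rw [e1, ← e2]
      exact h
    obtain ⟨k, hk, hk'⟩ := hα
    obtain ⟨l, hl, hl'⟩ := hβ
    have h1 := hmax _ hk'
    have h2 := hmax _ hl'
    rw [map_mul, map_zpow, ha, ← map_zpow] at h1
    rw [map_mul, map_zpow, hb, ← map_zpow] at h2
    have h3 := (ends_in (M := fun _ : Bool => Multiplicative ℤ) (i := false) (hpow u hu k hk) h1).2
    have h4 := (ends_in (M := fun _ : Bool => Multiplicative ℤ) (i := true) (hpow v hv l hl) h2).2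
    rw [h3] at h4
    exact absurd (Option.some.inj h4) (by decide)
  have hVz : ∀ x, V x = 0 := eq_zero_of_invariant hV hcb fun x => zmod2_eq_of_add (hZ0 x)
  have hUz : ∀ x, U x = 0 := eq_zero_of_invariant hU hca fun x => by
    apply zmod2_eq_of_add
    rw [← hZW x, hVz, hVz, add_zero]
  exact ⟨fun x => zmod2_eq_of_add (hUz x), fun x => zmod2_eq_of_add (hVz x)⟩

end comb

/-! ### Application to `Gam` -/

/-- a homomorphism detecting `a_{n+1}, b_n` -/
lemma exists_detect (n : ℕ) : ∃ p : Gam →* CoprodI (fun _ : Bool => Multiplicative ℤ),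
    p (a (n + 1)) = CoprodI.of (i := false) (Multiplicative.ofAdd 2) ∧
    p (b n) = CoprodI.of (i := true) (Multiplicative.ofAdd 1) := by
  let β : ℕ → CoprodI (fun _ : Bool => Multiplicative ℤ) := fun m =>
    if m = n then CoprodI.of (i := true) (Multiplicative.ofAdd 1)
    else if m = n + 1 then CoprodI.of (i := false) (Multiplicative.ofAdd 1) else 1
  have hβ : ∀ m ≥ n + 2, β m = 1 := by
    intro m hm
    change (if m = n then _ else _) = _
    rw [if_neg (by omega), if_neg (by omega)]
  refine ⟨homN (n + 2) β hβ, ?_, ?_⟩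
  · rw [homN, homG_a, alp_rel (n + 2) β hβ (n + 1), alp_ge (n + 2) β (n + 1 + 1) le_rfl, one_pow,
      one_mul]
    change (if n + 1 = n then _ else _) ^ 2 = _
    rw [if_neg (by omega), if_pos rfl, ← map_pow]; rfl
  · rw [homN, homG_b]
    change (if n = n then _ else _) = _
    rw [if_pos rfl]

lemma invariant_all (χ : Gam → ZMod 2) (hχ : ∀ g, {x | χ (x * g) ≠ χ x}.Finite)
    (h0 : ∀ x, χ (x * a 0) = χ x) : ∀ g x, χ (x * g) = χ x := by
  have hn : ∀ n, (∀ x, χ (x * a n) = χ x) ∧ ∀ x, χ (x * b n) = χ x := by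
    have hstep : ∀ n, (∀ x, χ (x * a n) = χ x) →
        (∀ x, χ (x * a (n + 1)) = χ x) ∧ ∀ x, χ (x * b n) = χ x := by
      intro n h
      obtain ⟨p, hp1, hp2⟩ := exists_detect n
      exact key_lemma p (a (n + 1)) (b n) _ _ (by decide) (by decide) hp1 hp2 χ (hχ _) (hχ _)
        (fun x => by rw [← a_rel]; exact h x)
    have ha : ∀ n, ∀ x, χ (x * a n) = χ x := by
      intro n
      induction n with
      | zero => exact h0
      | succ n ih => exact (hstep n ih).1
    exact fun n => ⟨ha n, (hstep n (ha n)).2⟩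
  intro g
  have h : g ∈ Subgroup.closure (Set.range (PresentedGroup.of (rels := rels))) := by
    rw [PresentedGroup.closure_range_of]; trivial
  refine Subgroup.closure_induction (p := fun g _ => ∀ x, χ (x * g) = χ x) ?_ ?_ ?_ ?_ h
  · rintro _ ⟨n | n, rfl⟩
    · exact (hn n).1
    · exact (hn n).2
  · intro x; rw [mul_one]
  · intro y z _ _ hy hz x
    rw [← mul_assoc, hz, hy]
  · intro y _ hy x
    rw [← hy (x * y⁻¹), inv_mul_cancel_right]

open Classical in
/-- indicator functions -/
noncomputable def ind (A : Set Gam) (x : Gam) : ZMod 2 := if x ∈ A then 1 else 0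

lemma ind_eq {A : Set Gam} {x y : Gam} : ind A x = ind A y ↔ (x ∈ A ↔ y ∈ A) := by
  unfold ind
  by_cases hx : x ∈ A <;> by_cases hy : y ∈ A <;> simp [hx, hy]

/-- **The algebra of almost invariant subsets of `Gam` is countable.** -/
theorem countable_almostInvariant : Countable (AlmostInvariant Gam) := by
  classical
  have hfin : ∀ (A : AlmostInvariant Gam) (g : Gam), {x | ¬ (x ∈ (A : Set Gam) ↔
      x * g ∈ (A : Set Gam))}.Finite := by
    intro A g
    have h := A.2 g⁻¹
    rw [symmDiff_image, inv_inv] at h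
    exact h
  let f : AlmostInvariant Gam → Finset Gam × Prop := fun A =>
    ((hfin A (a 0)).toFinset, (1 : Gam) ∈ (A : Set Gam))
  have hf : Injective f := by
    intro A A' h
    have h1 : (hfin A (a 0)).toFinset = (hfin A' (a 0)).toFinset := congrArg Prod.fst h
    have h2 : ((1 : Gam) ∈ (A : Set Gam)) = ((1 : Gam) ∈ (A' : Set Gam)) := congrArg Prod.snd h
    have h3 : ∀ x, (x ∈ (A : Set Gam) ↔ x * a 0 ∈ (A : Set Gam)) ↔
        (x ∈ (A' : Set Gam) ↔ x * a 0 ∈ (A' : Set Gam)) := by
      intro x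
      have h4 : x ∈ (hfin A (a 0)).toFinset ↔ x ∈ (hfin A' (a 0)).toFinset := by rw [h1]
      rw [Set.Finite.mem_toFinset, Set.Finite.mem_toFinset] at h4
      exact not_iff_not.mp h4
    let χ : Gam → ZMod 2 := fun x => ind A x + ind A' x
    have hχ : ∀ g, {x | χ (x * g) ≠ χ x}.Finite := by
      intro g
      refine ((hfin A g).union (hfin A' g)).subset ?_
      intro x hx
      by_contra h5
      rw [Set.mem_union, not_or] at h5
      apply hx
      change ind A (x * g) + ind A' (x * g) = ind A x + ind A' x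
      rw [ind_eq.mpr (not_not.mp h5.1).symm, ind_eq.mpr (not_not.mp h5.2).symm]
    have h0 : ∀ x, χ (x * a 0) = χ x := by
      intro x
      change ind A (x * a 0) + ind A' (x * a 0) = ind A x + ind A' x
      have h4 := h3 x
      unfold ind
      by_cases c1 : x ∈ (A : Set Gam) <;> by_cases c2 : x * a 0 ∈ (A : Set Gam) <;>
      by_cases c3 : x ∈ (A' : Set Gam) <;> by_cases c4 : x * a 0 ∈ (A' : Set Gam) <;>
      simp only [c1, c2, c3, c4, if_true, if_false] at h4 ⊢ <;>
      first
        | rfl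
        | (exfalso; revert h4; simp)
    have hall := invariant_all χ hχ h0
    have h1' : χ 1 = 0 := by
      change ind A 1 + ind A' 1 = 0
      have : ind (A : Set Gam) 1 = ind (A' : Set Gam) 1 := by
        unfold ind
        rw [if_congr (Iff.of_eq h2) rfl rfl]
      rw [this]; exact zmod2_add_self _
    have hz : ∀ x, χ x = 0 := by
      intro x
      have := hall x 1
      rw [one_mul, h1'] at this
      exact this
    apply Subtype.ext
    ext x
    have h5 := zmod2_eq_of_add (hz x)
    unfold ind at h5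
    by_cases c1 : x ∈ (A : Set Gam) <;> by_cases c2 : x ∈ (A' : Set Gam) <;>
      simp [c1, c2] at h5 ⊢
  exact hf.countable

end Pool.Agent.V1122.Ends
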